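import Mathlib
set_option autoImplicit false
namespace Pool.Agent.H3.LatDet
open Matrix

theorem det_AB {R : Type*} [CommRing R] {m : Type*} [Fintype m] [DecidableEq m]
    (A B : Matrix m m R) :
    (fromBlocks A B B A).det = (A + B).det * (A - B).det := by
  have h : fromBlocks (1 : Matrix m m R) 1 0 1 * fromBlocks A B B A * fromBlocks 1 (-1) 0 1
      = fromBlocks (A + B) 0 B (A - B) := by
    rw [fromBlocks_multiply, fromBlocks_multiply]
    congr 1
    · simp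
    · simp; abel
    · simp
    · simp [sub_eq_add_neg, add_comm]
  have h2 := congrArg det h
  rw [det_mul, det_mul, det_fromBlocks_zero₂₁, det_fromBlocks_zero₂₁, det_fromBlocks_zero₁₂] at h2
  simpa using h2

theorem det_klein {R : Type*} [CommRing R] (a b c d : R) :
    (!![a, b, c, d; b, a, d, c; c, d, a, b; d, c, b, a] : Matrix (Fin 4) (Fin 4) R).det
      = (a + b + c + d) * (a - b + c - d) * (a + b - c - d) * (a - b - c + d) := by
  simp [det_succ_row_zero, Fin.sum_univ_succ, Fin.succAbove]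
  ring

section odd
variable {R : Type*} [CommRing R] (y0 y1 y2 y3 y4 y5 y6 y7 : R)

def mX : Matrix (Fin 4) (Fin 4) R :=
  !![y0, y1, y2, y3; y1, -y0, y3, -y2; y2, -y3, -y0, y1; y3, y2, -y1, -y0]
def mY : Matrix (Fin 4) (Fin 4) R :=
  !![y4, y5, y6, y7; y5, -y4, -y7, y6; y6, y7, -y4, -y5; y7, -y6, y5, -y4]
def mZ : Matrix (Fin 4) (Fin 4) R :=
  !![y4, -y5, -y6, -y7; y5, y4, -y7, y6; y6, y7, y4, -y5; y7, -y6, y5, y4]
def mW : Matrix (Fin 4) (Fin 4) R :=
  !![y0, y1, -y2, y3; y1, -y0, y3, y2; y2, y3, y0, -y1; y3, -y2, -y1, -y0]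

def qa : R := y0 ^ 2 + y1 ^ 2 + y2 ^ 2 + y3 ^ 2

theorem XXT : mX y0 y1 y2 y3 * (mX y0 y1 y2 y3)ᵀ = (qa y0 y1 y2 y3) • (1 : Matrix (Fin 4) (Fin 4) R) := by
  ext i j
  fin_cases i <;> fin_cases j <;> simp [mX, qa, Matrix.mul_apply, Fin.sum_univ_succ] <;> ring

theorem WWT : mW y0 y1 y2 y3 * (mW y0 y1 y2 y3)ᵀ = (qa y0 y1 y2 y3) • (1 : Matrix (Fin 4) (Fin 4) R) := by
  ext i j
  fin_cases i <;> fin_cases j <;> simp [mW, qa, Matrix.mul_apply, Fin.sum_univ_succ] <;> ring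

end odd
theorem tX {R : Type*} [CommRing R] (y0 y1 y2 y3 : R) : (mX y0 y1 y2 y3).det = - qa y0 y1 y2 y3 ^ 2 := by
  simp [mX, qa, det_succ_row_zero, Fin.sum_univ_succ, Fin.succAbove]
  ring
theorem tW {R : Type*} [CommRing R] (y0 y1 y2 y3 : R) : (mW y0 y1 y2 y3).det = qa y0 y1 y2 y3 ^ 2 := by
  simp [mW, qa, det_succ_row_zero, Fin.sum_univ_succ, Fin.succAbove]
  ring
end Pool.Agent.H3.LatDet
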