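import Pool.Agent.H3.LatDet
set_option autoImplicit false
namespace Pool.Agent.H3.LatDet
open Matrix

theorem det_four {R : Type*} [CommRing R] (s b α β γ : R) :
    (!![s - b * α, -(b * β), 0, -(b * γ); -(b * β), s + b * α, -(b * γ), 0;
        0, -(b * γ), s - b * α, b * β; -(b * γ), 0, b * β, s + b * α] : Matrix (Fin 4) (Fin 4) R).det
      = (s ^ 2 - b ^ 2 * (α ^ 2 + β ^ 2 + γ ^ 2)) ^ 2 := by
  simp [det_succ_row_zero, Fin.sum_univ_succ, Fin.succAbove]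
  ring


def mG {R : Type*} [CommRing R] (y0 y1 y2 y3 y4 y5 y6 y7 : R) : Matrix (Fin 4) (Fin 4) R :=
  !![y0*y4 + y1*y5 - y2*y6 + y3*y7, -y0*y5 + y1*y4 + y2*y7 + y3*y6, y0*y6 - y1*y7 + y2*y4 + y3*y5, -y0*y7 - y1*y6 - y2*y5 + y3*y4; y0*y5 - y1*y4 + y2*y7 + y3*y6, y0*y4 + y1*y5 + y2*y6 - y3*y7, -y0*y7 - y1*y6 + y2*y5 - y3*y4, -y0*y6 + y1*y7 + y2*y4 + y3*y5; y0*y6 + y1*y7 + y2*y4 - y3*y5, -y0*y7 + y1*y6 - y2*y5 - y3*y4, -y0*y4 + y1*y5 + y2*y6 + y3*y7, y0*y5 + y1*y4 - y2*y7 + y3*y6; y0*y7 - y1*y6 - y2*y5 - y3*y4, y0*y6 + y1*y7 - y2*y4 + y3*y5, y0*y5 + y1*y4 + y2*y7 - y3*y6, y0*y4 - y1*y5 + y2*y6 + y3*y7]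
def mH {R : Type*} [CommRing R] (y0 y1 y2 y3 y4 y5 y6 y7 : R) : Matrix (Fin 4) (Fin 4) R :=
  !![y0*y4 - y1*y5 - y2*y6 - y3*y7, y0*y5 + y1*y4 + y2*y7 - y3*y6, y0*y6 - y1*y7 + y2*y4 + y3*y5, y0*y7 + y1*y6 - y2*y5 + y3*y4; y0*y5 + y1*y4 - y2*y7 + y3*y6, -y0*y4 + y1*y5 - y2*y6 - y3*y7, y0*y7 + y1*y6 + y2*y5 - y3*y4, -y0*y6 + y1*y7 + y2*y4 + y3*y5; y0*y6 + y1*y7 + y2*y4 - y3*y5, -y0*y7 + y1*y6 + y2*y5 + y3*y4, -y0*y4 - y1*y5 + y2*y6 - y3*y7, y0*y5 - y1*y4 + y2*y7 + y3*y6; y0*y7 - y1*y6 + y2*y5 + y3*y4, y0*y6 + y1*y7 - y2*y4 + y3*y5, -y0*y5 + y1*y4 + y2*y7 + y3*y6, -y0*y4 - y1*y5 - y2*y6 + y3*y7]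
theorem G_eq {R : Type*} [CommRing R] (y0 y1 y2 y3 y4 y5 y6 y7 : R) :
    mY y4 y5 y6 y7 * (mW y0 y1 y2 y3)ᵀ = mG y0 y1 y2 y3 y4 y5 y6 y7 := by
  ext i j
  fin_cases i <;> fin_cases j <;> simp [mY, mW, mG, Matrix.mul_apply, Fin.sum_univ_succ] <;> ring
theorem H_eq {R : Type*} [CommRing R] (y0 y1 y2 y3 y4 y5 y6 y7 : R) :
    mZ y4 y5 y6 y7 * (mX y0 y1 y2 y3)ᵀ = mH y0 y1 y2 y3 y4 y5 y6 y7 := by
  ext i j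
  fin_cases i <;> fin_cases j <;> simp [mZ, mX, mH, Matrix.mul_apply, Fin.sum_univ_succ] <;> ring
theorem HG {R : Type*} [CommRing R] (y0 y1 y2 y3 y4 y5 y6 y7 : R) :
    (qa y0 y1 y2 y3 ^ 2) • (1 : Matrix (Fin 4) (Fin 4) R)
      - (mZ y4 y5 y6 y7 * (mX y0 y1 y2 y3)ᵀ) * (mY y4 y5 y6 y7 * (mW y0 y1 y2 y3)ᵀ)
    = !![qa y0 y1 y2 y3 ^ 2 - qa y4 y5 y6 y7 * (y0^2 - y1^2 + y2^2 - y3^2), -(qa y4 y5 y6 y7 * (2 * (y0*y1 - y2*y3))), 0, -(qa y4 y5 y6 y7 * (2 * (y0*y3 + y1*y2)));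
      -(qa y4 y5 y6 y7 * (2 * (y0*y1 - y2*y3))), qa y0 y1 y2 y3 ^ 2 + qa y4 y5 y6 y7 * (y0^2 - y1^2 + y2^2 - y3^2), -(qa y4 y5 y6 y7 * (2 * (y0*y3 + y1*y2))), 0;
        0, -(qa y4 y5 y6 y7 * (2 * (y0*y3 + y1*y2))), qa y0 y1 y2 y3 ^ 2 - qa y4 y5 y6 y7 * (y0^2 - y1^2 + y2^2 - y3^2), qa y4 y5 y6 y7 * (2 * (y0*y1 - y2*y3)); -(qa y4 y5 y6 y7 * (2 * (y0*y3 + y1*y2))), 0, qa y4 y5 y6 y7 * (2 * (y0*y1 - y2*y3)), qa y0 y1 y2 y3 ^ 2 + qa y4 y5 y6 y7 * (y0^2 - y1^2 + y2^2 - y3^2)] := by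
  rw [G_eq, H_eq]
  ext i j
  rw [Matrix.sub_apply, Matrix.mul_apply, Fin.sum_univ_four, Matrix.smul_apply]
  fin_cases i <;> fin_cases j <;> simp [mG, mH, qa] <;> ring

theorem det_odd {R : Type*} [CommRing R] [IsDomain R] (y0 y1 y2 y3 y4 y5 y6 y7 : R)
    (ha : qa y0 y1 y2 y3 ≠ 0) :
    (fromBlocks (mX y0 y1 y2 y3) (mY y4 y5 y6 y7) (mZ y4 y5 y6 y7) (mW y0 y1 y2 y3)).det
      = - (qa y0 y1 y2 y3 ^ 2 - qa y4 y5 y6 y7 ^ 2) ^ 2 := by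
  have hX := XXT y0 y1 y2 y3
  have hW := WWT y0 y1 y2 y3
  have hHG := HG y0 y1 y2 y3 y4 y5 y6 y7
  have dX := tX y0 y1 y2 y3
  have dW := tW y0 y1 y2 y3
  have d4 := det_four (qa y0 y1 y2 y3 ^ 2) (qa y4 y5 y6 y7) (y0^2 - y1^2 + y2^2 - y3^2) (2 * (y0*y1 - y2*y3)) (2 * (y0*y3 + y1*y2))
  have e : (y0^2 - y1^2 + y2^2 - y3^2)^2 + (2 * (y0*y1 - y2*y3))^2 + (2 * (y0*y3 + y1*y2))^2 = qa y0 y1 y2 y3 ^ 2 := by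
    simp only [qa]; ring
  rw [e] at d4
  generalize mX y0 y1 y2 y3 = X at *
  generalize mW y0 y1 y2 y3 = W at *
  generalize mY y4 y5 y6 y7 = Y at *
  generalize mZ y4 y5 y6 y7 = Z at *
  generalize qa y0 y1 y2 y3 = a at *
  generalize qa y4 y5 y6 y7 = b at *
  have h1 : fromBlocks X Y Z W * fromBlocks Xᵀ 0 0 Wᵀ
      = fromBlocks (a • (1 : Matrix (Fin 4) (Fin 4) R)) (Y * Wᵀ) (Z * Xᵀ) (a • (1 : Matrix (Fin 4) (Fin 4) R)) := by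
    rw [fromBlocks_multiply]
    simp [hX, hW]
  have h2 : fromBlocks (a • (1 : Matrix (Fin 4) (Fin 4) R)) (Y * Wᵀ) (Z * Xᵀ) (a • (1 : Matrix (Fin 4) (Fin 4) R))
      * fromBlocks (a • (1 : Matrix (Fin 4) (Fin 4) R)) (-(Y * Wᵀ)) 0 (a • (1 : Matrix (Fin 4) (Fin 4) R))
      = fromBlocks ((a ^ 2) • (1 : Matrix (Fin 4) (Fin 4) R)) 0 (a • (Z * Xᵀ)) ((a ^ 2) • (1 : Matrix (Fin 4) (Fin 4) R) - (Z * Xᵀ) * (Y * Wᵀ)) := by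
    rw [fromBlocks_multiply]
    congr 1
    · simp [smul_smul, sq]
    · simp
    · simp
    · simp [smul_smul, sq, sub_eq_add_neg, add_comm]
  have d1 := congrArg det h1
  have d2 := congrArg det h2
  rw [det_mul, det_fromBlocks_zero₂₁, det_transpose, det_transpose, dX, dW] at d1
  rw [det_mul, ← d1, det_fromBlocks_zero₂₁, det_fromBlocks_zero₁₂, hHG, d4] at d2
  simp only [det_smul, det_one, Fintype.card_fin, mul_one] at d2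
  generalize (fromBlocks X Y Z W).det = D at *
  have h0 : a ^ 12 * (D + (a ^ 2 - b ^ 2) ^ 2) = 0 := by linear_combination -d2
  rcases mul_eq_zero.mp h0 with h | h
  · exact absurd (pow_eq_zero_iff (by norm_num) |>.mp h) ha
  · linear_combination h

end Pool.Agent.H3.LatDet
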