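import Mathlib
set_option autoImplicit false
namespace Pool.Agent.H3.LatIrr
open MvPolynomial

variable {σ : Type*}

theorem isUnit_of_deg_zero {p : MvPolynomial σ ℂ} (hp : p ≠ 0) (h : p.totalDegree = 0) : IsUnit p := by
  rw [totalDegree_eq_zero_iff_eq_C] at h
  rw [h] at hp ⊢
  have : coeff 0 p ≠ 0 := by
    intro h0; apply hp; rw [h0]; simp
  exact (IsUnit.mk0 _ this).map C

theorem irr_of_deg_one {p : MvPolynomial σ ℂ} (h : p.totalDegree = 1) : Irreducible p := by
  have hp : p ≠ 0 := by rintro rfl; simp at h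
  refine ⟨?_, ?_⟩
  · intro hu
    have := (MvPolynomial.isUnit_iff_totalDegree_of_isReduced.mp hu).2
    omega
  · intro a b hab
    have ha : a ≠ 0 := by rintro rfl; apply hp; rw [hab]; simp
    have hb : b ≠ 0 := by rintro rfl; apply hp; rw [hab]; simp
    have hd := totalDegree_mul_of_isDomain ha hb
    rw [← hab, h] at hd
    rcases Nat.eq_zero_or_pos a.totalDegree with h0 | h0
    · exact Or.inl (isUnit_of_deg_zero ha h0)
    · exact Or.inr (isUnit_of_deg_zero hb (by omega))

theorem affine_add {p : MvPolynomial σ ℂ} (h : p.totalDegree ≤ 1) (v w : σ → ℂ) :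
    eval (v + w) p + eval 0 p = eval v p + eval w p := by
  classical
  rw [eval_eq, eval_eq, eval_eq, eval_eq, ← Finset.sum_add_distrib, ← Finset.sum_add_distrib]
  refine Finset.sum_congr rfl ?_
  intro m hm
  have hm1 : (m.sum fun _ e => e) ≤ 1 := le_trans (le_totalDegree hm) h
  rw [← mul_add, ← mul_add]
  congr 1
  rcases Finset.eq_empty_or_nonempty m.support with h0 | ⟨i, hi⟩
  · rw [h0]; simp
  · have hs : m.support = {i} := by
      apply Finset.eq_singleton_iff_unique_mem.mpr
      refine ⟨hi, ?_⟩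
      intro j hj
      by_contra hne
      have h2 : ∑ k ∈ ({i, j} : Finset σ), m k ≤ ∑ k ∈ m.support, m k := by
        apply Finset.sum_le_sum_of_subset
        intro x hx
        simp only [Finset.mem_insert, Finset.mem_singleton] at hx
        rcases hx with rfl | rfl <;> assumption
      rw [Finset.sum_pair (fun h => hne h.symm)] at h2
      have h3 : m i ≠ 0 := Finsupp.mem_support_iff.mp hi
      have h4 : m j ≠ 0 := Finsupp.mem_support_iff.mp hj
      simp only [Finsupp.sum] at hm1
      omega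
    have hmi : m i = 1 := by
      have h3 : m i ≠ 0 := Finsupp.mem_support_iff.mp hi
      simp only [Finsupp.sum, hs, Finset.sum_singleton] at hm1
      omega
    rw [hs]; simp [hmi]


/-- If `q` has total degree 2 and takes the values of a sum of three squares on the span of three vectors, it is irreducible. -/
theorem irr_of_three {q : MvPolynomial σ ℂ} (hq : q.totalDegree = 2) (e1 e2 e3 : σ → ℂ)
    (hval : ∀ a b c : ℂ, eval (a • e1 + b • e2 + c • e3) q = a ^ 2 + b ^ 2 + c ^ 2) :
    Irreducible q := by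
  have hp : q ≠ 0 := by rintro rfl; simp at hq
  refine ⟨?_, ?_⟩
  · intro hu
    have := (MvPolynomial.isUnit_iff_totalDegree_of_isReduced.mp hu).2
    omega
  · intro g h hgh
    have hg : g ≠ 0 := by rintro rfl; apply hp; rw [hgh]; simp
    have hh : h ≠ 0 := by rintro rfl; apply hp; rw [hgh]; simp
    have hd := totalDegree_mul_of_isDomain hg hh
    rw [← hgh, hq] at hd
    rcases Nat.eq_zero_or_pos g.totalDegree with h0 | h0
    · exact Or.inl (isUnit_of_deg_zero hg h0)
    rcases Nat.eq_zero_or_pos h.totalDegree with h0' | h0'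
    · exact Or.inr (isUnit_of_deg_zero hh h0')
    exfalso
    have hg1 : g.totalDegree ≤ 1 := by omega
    have hh1 : h.totalDegree ≤ 1 := by omega
    have V : ∀ a b c : ℂ, eval (a • e1 + b • e2 + c • e3) g * eval (a • e1 + b • e2 + c • e3) h
        = a ^ 2 + b ^ 2 + c ^ 2 := by
      intro a b c
      rw [← hval a b c, hgh, map_mul]
    have z := V 0 0 0
    have p1 := V 1 0 0
    have p2 := V 0 1 0
    have p3 := V 0 0 1
    have m1 := V (-1) 0 0
    have m2 := V 0 (-1) 0
    have m3 := V 0 0 (-1)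
    have p12 := V 1 1 0
    have p13 := V 1 0 1
    have p23 := V 0 1 1
    simp only [zero_smul, one_smul, neg_smul, add_zero, zero_add] at z p1 p2 p3 m1 m2 m3 p12 p13 p23
    have Ag : ∀ x y : σ → ℂ, eval (x + y) g = eval x g + eval y g - eval 0 g := by
      intro x y; linear_combination affine_add hg1 x y
    have Ah : ∀ x y : σ → ℂ, eval (x + y) h = eval x h + eval y h - eval 0 h := by
      intro x y; linear_combination affine_add hh1 x y
    have Ng : ∀ x : σ → ℂ, eval (-x) g = 2 * eval 0 g - eval x g := by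
      intro x
      have := Ag x (-x)
      rw [add_neg_cancel] at this
      linear_combination -this
    have Nh : ∀ x : σ → ℂ, eval (-x) h = 2 * eval 0 h - eval x h := by
      intro x
      have := Ah x (-x)
      rw [add_neg_cancel] at this
      linear_combination -this
    rw [Ag, Ah] at p12 p13 p23
    rw [Ng, Nh] at m1 m2 m3
    generalize eval 0 g = G0 at *
    generalize eval 0 h = H0 at *
    obtain ⟨G1, hG1⟩ : ∃ x, x = eval e1 g - G0 := ⟨_, rfl⟩
    obtain ⟨G2, hG2⟩ : ∃ x, x = eval e2 g - G0 := ⟨_, rfl⟩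
    obtain ⟨G3, hG3⟩ : ∃ x, x = eval e3 g - G0 := ⟨_, rfl⟩
    obtain ⟨H1, hH1⟩ : ∃ x, x = eval e1 h - H0 := ⟨_, rfl⟩
    obtain ⟨H2, hH2⟩ : ∃ x, x = eval e2 h - H0 := ⟨_, rfl⟩
    obtain ⟨H3, hH3⟩ : ∃ x, x = eval e3 h - H0 := ⟨_, rfl⟩
    have a1 : eval e1 g = G1 + G0 := by rw [hG1]; ring
    have a2 : eval e2 g = G2 + G0 := by rw [hG2]; ring
    have a3 : eval e3 g = G3 + G0 := by rw [hG3]; ring
    have b1 : eval e1 h = H1 + H0 := by rw [hH1]; ring
    have b2 : eval e2 h = H2 + H0 := by rw [hH2]; ring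
    have b3 : eval e3 h = H3 + H0 := by rw [hH3]; ring
    rw [a1, b1] at p1 m1
    rw [a2, b2] at p2 m2
    rw [a3, b3] at p3 m3
    rw [a1, b1, a2, b2] at p12
    rw [a1, b1, a3, b3] at p13
    rw [a2, b2, a3, b3] at p23
    have s1 : G1 * H1 = 1 := by linear_combination (1/2) * p1 + (1/2) * m1 - z
    have s2 : G2 * H2 = 1 := by linear_combination (1/2) * p2 + (1/2) * m2 - z
    have s3 : G3 * H3 = 1 := by linear_combination (1/2) * p3 + (1/2) * m3 - z
    have c12 : G1 * H2 + G2 * H1 = 0 := by linear_combination p12 - p1 - p2 + z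
    have c13 : G1 * H3 + G3 * H1 = 0 := by linear_combination p13 - p1 - p3 + z
    have c23 : G2 * H3 + G3 * H2 = 0 := by linear_combination p23 - p2 - p3 + z
    have q12 : (G1 * H2) ^ 2 = -1 := by linear_combination (G1 * H2) * c12 - (G2 * H2) * s1 - s2
    have q13 : (G1 * H3) ^ 2 = -1 := by linear_combination (G1 * H3) * c13 - (G3 * H3) * s1 - s3
    have q23 : (G2 * H3) ^ 2 = -1 := by linear_combination (G2 * H3) * c23 - (G3 * H3) * s2 - s3
    have r : (G1 * H2) * (G2 * H3) = G1 * H3 := by linear_combination (G1 * H3) * s2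
    have : (1 : ℂ) = -1 := by
      calc (1 : ℂ) = (G1 * H2) ^ 2 * (G2 * H3) ^ 2 := by rw [q12, q23]; ring
        _ = (G1 * H3) ^ 2 := by rw [← r]; ring
        _ = -1 := q13
    norm_num at this

end Pool.Agent.H3.LatIrr
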